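import Pool.Agent.H20WP.Stm

/-! Piece CNT of the project H20WP: counting of tables. -/

set_option autoImplicit false

namespace Pool.Agent.H20WP

theorem t_CNT : S_CNT := by
  classical
  intro K n β N f G hf hG hlt
  by_contra hcon
  push Not at hcon
  -- all lists of length N
  have h1 : (Finset.univ : Finset ((Fin K → Bool) → (Fin n → Bool))) ⊆
      (Finset.univ : Finset (List.Vector Bool N)).biUnion
        (fun c => Fintype.piFinset (fun _ : Fin K → Bool => G c.1)) := by
    intro T _
    rw [Finset.mem_biUnion]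
    refine ⟨⟨f T, hf T⟩, Finset.mem_univ _, ?_⟩
    rw [Fintype.mem_piFinset]
    intro w
    exact hcon T w
  have h2 := Finset.card_le_card h1
  have h3 := h2.trans Finset.card_biUnion_le
  have h4 : ∑ c : List.Vector Bool N, (Fintype.piFinset (fun _ : Fin K → Bool => G c.1)).card
      ≤ 2 ^ N * 2 ^ (β * 2 ^ K) := by
    calc ∑ c : List.Vector Bool N, (Fintype.piFinset (fun _ : Fin K → Bool => G c.1)).card
        ≤ ∑ c : List.Vector Bool N, 2 ^ (β * 2 ^ K) := by
          apply Finset.sum_le_sum
          intro c _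
          rw [Fintype.card_piFinset, Finset.prod_const, Finset.card_univ]
          calc (G c.1).card ^ Fintype.card (Fin K → Bool) ≤ (2 ^ β) ^ Fintype.card (Fin K → Bool) :=
                Nat.pow_le_pow_left (hG _) _
            _ = 2 ^ (β * 2 ^ K) := by simp [pow_mul]
      _ = 2 ^ N * 2 ^ (β * 2 ^ K) := by
          simp [card_vector]
  have h5 : (Finset.univ : Finset ((Fin K → Bool) → (Fin n → Bool))).card = 2 ^ (n * 2 ^ K) := by
    simp [pow_mul]
  rw [h5] at h3
  have h6 : 2 ^ (n * 2 ^ K) ≤ 2 ^ (N + β * 2 ^ K) := by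
    rw [pow_add]
    exact h3.trans h4
  have h7 := (Nat.pow_le_pow_iff_right (by norm_num : 1 < 2)).1 h6
  omega

end Pool.Agent.H20WP
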