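import Pool.Agent.H20WP.Stm
import Pool.Agent.H20PW.Defs

/-!
# Project H20WP, piece COL: the tool makes `W[t]` and `A[t]` easy
-/

set_option autoImplicit false

namespace Pool.Agent.H20WP

open Pool.Agent.NPC Pool.Agent.H620R2.Gauge Pool.Agent.TH678.GC Pool.Agent.Y626.WG
  Pool.Agent.H622R2 Pool.Agent.H591R3.PHG Pool.Agent.TH678.RS Pool.Agent.H622R2.Exp
open Pool.Agent.Y626.WC (cut exists_self InFPT inW_of_inFPT poly_rep computable_replicate isFP_total)
open Pool.Agent.H20PW (InFPTn)

namespace COL

theorem tc_inj {I J : Inst} {m m' : ℕ} (h : tc I m = tc J m') : I = J ∧ m = m' := by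
  unfold tc at h
  have h3 := congrArg unpair h
  rw [unpair_pairBits, unpair_pairBits, Prod.mk.injEq] at h3
  have h4 := congrArg List.length h3.2
  rw [List.length_replicate, List.length_replicate] at h4
  exact ⟨bits_injective h3.1, h4⟩

/-- the tool is right -/
theorem tool_tc (A : Oracle) (I : Inst) (m : ℕ) (h1 : ((bits I).length + 1) ^ 4 ≤ m)
    (h2 : 2 ^ I.param ≤ m) : tool A (tc I m) = true ↔ I.Sat (ora A) := by
  classical
  rw [tool_spec]
  unfold rule
  rw [decide_eq_true_eq]
  have hlen : (bits I).length ^ 2 < (tc I m).length := by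
    unfold tc
    rw [length_pairBits, List.length_replicate]
    have : (bits I).length ^ 2 ≤ ((bits I).length + 1) ^ 4 := by
      calc (bits I).length ^ 2 ≤ ((bits I).length + 1) ^ 2 := Nat.pow_le_pow_left (by omega) 2
        _ ≤ ((bits I).length + 1) ^ 4 := Nat.pow_le_pow_right (by omega) (by norm_num)
    omega
  have hs : I.Sat (join A (cut (tool A) (tc I m).length)) ↔ I.Sat (ora A) := by
    refine Pool.Agent.Y626.WX.sat_of_agree I fun q hq => ?_
    rcases q with _ | ⟨b, z⟩
    · rfl
    · cases b with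
      | false => rfl
      | true =>
        show cut (tool A) (tc I m).length z = tool A z
        unfold cut
        rw [List.length_cons] at hq
        rw [if_pos (by omega)]
  constructor
  · rintro ⟨J, m', h3, -, -, h4⟩
    obtain ⟨rfl, rfl⟩ := tc_inj h3
    exact hs.1 h4
  · intro h
    exact ⟨I, m, rfl, h1, h2, hs.2 h⟩

/-- the length of the padding -/
def pd (y z : List Bool) : ℕ := (y.length + 1) ^ 4 + z.length

theorem poly_q : Poly (fun p : List Bool => (true :: pairBits (unpair p).1
    (List.replicate (pd (unpair p).1 (unpair p).2) true) : List Bool)) := by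
  have h1 : Poly (fun z : List Bool => (unpair z).1) := Poly.fst poly_unpair
  have h2 : Poly (fun z : List Bool => (unpair z).2) := Poly.snd poly_unpair
  have h3 : UPoly (fun p : List Bool => (unpair p).1.length + 1) :=
    (UPoly.length h1).add (UPoly.const 1)
  have h4 : UPoly (fun p : List Bool => pd (unpair p).1 (unpair p).2) :=
    (((h3.mul h3).mul (h3.mul h3)).add (UPoly.length h2)).congr fun a => by
      unfold pd
      beta_reduce
      rw [show (4 : ℕ) = 2 + 2 from rfl, pow_add, pow_two]
  exact Poly.cons (NPC.Poly.const true) (poly_pairBits h1 (poly_rep h4 true))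

/-- rearrangement -/
def ra (z : List Bool) : List Bool := pairBits (unpair (unpair z).1).1 (unpair z).2

theorem poly_ra : Poly ra := by
  have h1 : Poly (fun z : List Bool => (unpair z).1) := Poly.fst poly_unpair
  have h2 : Poly (fun z : List Bool => (unpair z).2) := Poly.snd poly_unpair
  exact poly_pairBits (h1.comp h1) h2

theorem col (A : Oracle) (M : Alg) : ∃ M' : Alg, ∀ (σ x : List Bool) (e : ℕ) (I : Inst),
    M.out (ora A) (pairBits σ x) = some (bits I) → 2 ^ I.param ≤ e →
    ∃ b : Bool, M'.out (ora A) (pairBits (pairBits σ (List.replicate e true)) x) = some [b] ∧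
      (I.Sat (ora A) ↔ b = true) := by
  have h1 : IsFP (ora A) (fun z => (M.out (ora A) (ra z)).getD []) :=
    (isFP_total (ora A) M).precomp poly_ra
  have h2 : IsFP (ora A) (fun z => pairBits ((M.out (ora A) (ra z)).getD []) z) :=
    IsFP.pair h1 (IsFP.of_poly NPC.Poly.id)
  obtain ⟨M', hM'⟩ := IsFP.comp (Pool.Agent.TH678.WP.isFP_ask' (ora A) poly_q) h2
  refine ⟨M', fun σ x e I hI he => ?_⟩
  refine ⟨_, hM' _, ?_⟩
  have h3 : ra (pairBits (pairBits σ (List.replicate e true)) x) = pairBits σ x := by
    unfold ra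
    rw [unpair_pairBits]
    dsimp only
    rw [unpair_pairBits]
  rw [h3, hI, Option.getD_some, unpair_pairBits]
  dsimp only
  have h4 := tool_tc A I (pd (bits I) (pairBits (pairBits σ (List.replicate e true)) x))
    (by unfold pd; omega) (by
      unfold pd
      rw [length_pairBits, length_pairBits, List.length_replicate]
      omega)
  exact h4.symm

end COL

theorem t_COL : S_COL := by
  intro A t α _ κ P h
  obtain ⟨π, g, R, M, hπ, hg, h⟩ := h
  obtain ⟨M', hM'⟩ := COL.col A M
  refine ⟨fun k => pairBits (π k) (List.replicate (2 ^ g k) true), M', ?_, fun a => ?_⟩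
  · have hr : Computable (fun k => List.replicate (2 ^ g k) true) :=
      computable_replicate (Pool.Agent.TH678.WP.computable_pow.comp hg)
    exact Pool.Agent.TH678.WP.computable_pairBits.comp hπ hr
  · obtain ⟨h1, -, h3, h4⟩ := h a
    obtain ⟨b, hb1, hb2⟩ := hM' _ _ (2 ^ g (κ a)) _ h1 (Nat.pow_le_pow_right (by norm_num) h3)
    exact ⟨b, hb1, h4.trans hb2⟩

/-- the nonuniform form for `A[t]` -/
theorem colA (A : Oracle) (t : ℕ) (α : Type) [TEnc α] (κ : α → ℕ) (P : α → Prop)
    (h : InA t (ora A) κ P) : InFPTn (ora A) κ P := by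
  obtain ⟨π, g, R, M, h⟩ := h
  obtain ⟨M', hM'⟩ := COL.col A M
  refine ⟨fun k => pairBits (π k) (List.replicate (2 ^ g k) true), M', fun a => ?_⟩
  obtain ⟨h1, -, h3, h4⟩ := h a
  obtain ⟨b, hb1, hb2⟩ := hM' _ _ (2 ^ g (κ a)) _ h1 (Nat.pow_le_pow_right (by norm_num) h3)
  exact ⟨b, hb1, h4.trans hb2⟩

end Pool.Agent.H20WP
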