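import Pool.Agent.H20WP.Stm

/-! Piece DEP of the project H20WP: the tool depends on few places of the oracle. -/

set_option autoImplicit false

namespace Pool.Agent.H20WP

open Pool.Agent.NPC Pool.Agent.H620R2.Gauge Pool.Agent.TH678.GC Pool.Agent.Y626.WG
open Pool.Agent.Y626.WC (cut exists_self InFPT)

namespace DEP

theorem holds_congr' {N : ℕ} {P P' : List ℕ → Prop} :
    ∀ (bs : List ℕ) (b : Bool) (v : List ℕ),
      (∀ y : List ℕ, y.length = bs.sum → (∀ a ∈ y, a < N) → (P (v ++ y) ↔ P' (v ++ y))) →
      (Holds N P b bs v ↔ Holds N P' b bs v)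
  | [], b, v, h => by
    have := h [] rfl (by simp)
    rw [List.append_nil] at this
    cases b <;> exact this
  | s :: bs, true, v, h => by
    unfold Holds
    refine exists_congr fun w => and_congr_right fun hw1 => and_congr_right fun hw2 =>
      holds_congr' bs false (v ++ w) fun y hy1 hy2 => ?_
    rw [List.append_assoc]
    refine h _ (by rw [List.length_append, List.sum_cons, hw1, hy1]) fun a ha => ?_
    rcases List.mem_append.1 ha with ha | ha
    · exact hw2 a ha
    · exact hy2 a ha
  | s :: bs, false, v, h => by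
    unfold Holds
    refine forall_congr' fun w => imp_congr_right fun hw1 => imp_congr_right fun hw2 =>
      holds_congr' bs true (v ++ w) fun y hy1 hy2 => ?_
    rw [List.append_assoc]
    refine h _ (by rw [List.length_append, List.sum_cons, hw1, hy1]) fun a ha => ?_
    rcases List.mem_append.1 ha with ha | ha
    · exact hw2 a ha
    · exact hy2 a ha

/-- the lists of length `n` with entries less than `N` -/
def vs (n N : ℕ) : Finset (List ℕ) :=
  (Finset.univ : Finset (Fin n → Fin N)).image fun f => List.ofFn fun i => (f i : ℕ)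

theorem card_vs (n N : ℕ) : (vs n N).card ≤ N ^ n := by
  refine Finset.card_image_le.trans (le_of_eq ?_)
  simp

theorem mem_vs {n N : ℕ} {y : List ℕ} (h1 : y.length = n) (h2 : ∀ a ∈ y, a < N) : y ∈ vs n N := by
  subst h1
  rw [vs, Finset.mem_image]
  refine ⟨fun i => ⟨y.get i, h2 _ (List.get_mem _ _)⟩, Finset.mem_univ _, ?_⟩
  simp

theorem log_sq {ℓ s : ℕ} (h : (ℓ + 1) ^ 4 ≤ s) : 2 * Nat.log 2 (ℓ ^ 2) ≤ Nat.log 2 s := by
  rcases Nat.eq_zero_or_pos ℓ with rfl | hℓ
  · simp
  · have h1 : 2 ^ Nat.log 2 (ℓ ^ 2) ≤ ℓ ^ 2 := Nat.pow_log_le_self 2 (by positivity)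
    have h2 : 2 ^ (2 * Nat.log 2 (ℓ ^ 2)) ≤ s := by
      calc 2 ^ (2 * Nat.log 2 (ℓ ^ 2)) = (2 ^ Nat.log 2 (ℓ ^ 2)) ^ 2 := by rw [mul_comm, pow_mul]
        _ ≤ (ℓ ^ 2) ^ 2 := Nat.pow_le_pow_left h1 2
        _ = ℓ ^ 4 := by ring
        _ ≤ (ℓ + 1) ^ 4 := Nat.pow_le_pow_left (by omega) 4
        _ ≤ s := h
    exact Nat.le_log_of_pow_le (by norm_num) h2

theorem bd_mono {a b : ℕ} (h : a ≤ b) : bd a ≤ bd b := by
  unfold bd
  have := Nat.log_mono_right (b := 2) h
  gcongr
  norm_num

theorem one_le_bd (a : ℕ) : 1 ≤ bd a := Nat.one_le_two_pow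

theorem count {N n a ℓ s p : ℕ} (hN : N ≤ ℓ) (hn : n ≤ p) (ha : a ≤ p)
    (h4 : (ℓ + 1) ^ 4 ≤ s) (hp : 2 ^ p ≤ s) : N ^ n * (a * bd (ℓ ^ 2)) ≤ bd s := by
  set L := Nat.log 2 s with hL
  have hs : s < 2 ^ (L + 1) := Nat.lt_pow_succ_log_self (by norm_num) s
  have hs0 : s ≠ 0 := by
    have := Nat.one_le_two_pow (n := p)
    omega
  have h1 : ℓ ≤ s := by
    have : ℓ + 1 ≤ (ℓ + 1) ^ 4 := Nat.le_self_pow (by norm_num) _
    omega
  have h2 : p ≤ L := Nat.le_log_of_pow_le (by norm_num) hp
  have h3 : N ^ n ≤ 2 ^ ((L + 1) * L) := by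
    calc N ^ n ≤ (2 ^ (L + 1)) ^ n := Nat.pow_le_pow_left (by omega) n
      _ ≤ (2 ^ (L + 1)) ^ L := Nat.pow_le_pow_right (by positivity) (by omega)
      _ = 2 ^ ((L + 1) * L) := by rw [← pow_mul]
  have h5 : a ≤ 2 ^ L := (ha.trans h2).trans (Nat.lt_two_pow_self).le
  have h6 := log_sq h4
  rw [← hL] at h6
  have h7 : bd (ℓ ^ 2) ≤ 2 ^ ((L + 2) ^ 2) := by
    unfold bd
    refine Nat.pow_le_pow_right (by norm_num) ?_
    set k := Nat.log 2 (ℓ ^ 2)
    calc 4 * (k + 1) ^ 2 = (2 * k + 2) ^ 2 := by ring
      _ ≤ (L + 2) ^ 2 := Nat.pow_le_pow_left (by omega) 2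
  calc N ^ n * (a * bd (ℓ ^ 2)) ≤ 2 ^ ((L + 1) * L) * (2 ^ L * 2 ^ ((L + 2) ^ 2)) :=
        Nat.mul_le_mul h3 (Nat.mul_le_mul h5 h7)
    _ = 2 ^ ((L + 1) * L + (L + (L + 2) ^ 2)) := by rw [pow_add, pow_add]
    _ ≤ 2 ^ (4 * (L + 1) ^ 2) := by
        refine Nat.pow_le_pow_right (by norm_num) ?_
        nlinarith
    _ = bd s := rfl

theorem labels_le (I : Inst) : I.labels.length ≤ (bits I).length := by
  rw [bits_length]
  have e : sz I = sz (I.labels, I.rels, I.blocks, I.atoms, I.acc) := rfl
  rw [e, sz_pair]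
  have h2 := length_lt_sz I.labels
  omega

theorem tc_length (I : Inst) (m : ℕ) : (tc I m).length = 2 * (bits I).length + 1 + m := by
  rw [tc, Pool.Agent.H620R2.Gauge.length_pairBits, List.length_replicate]

theorem tc_inj {I J : Inst} {m n : ℕ} (h : tc I m = tc J n) : I = J ∧ m = n := by
  unfold tc at h
  have h1 := congrArg unpair h
  rw [unpair_pairBits, unpair_pairBits, Prod.mk.injEq] at h1
  refine ⟨bits_injective h1.1, ?_⟩
  have h2 := congrArg List.length h1.2
  simpa using h2

/-- the places for the question `q` -/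
def pl (D : List Bool → Finset (List Bool)) (s : ℕ) : List Bool → Finset (List Bool)
  | [] => ∅
  | false :: z => {z}
  | true :: z => if z.length < s then D z else ∅

theorem card_pl {D : List Bool → Finset (List Bool)} {s t : ℕ} (hD : ∀ z : List Bool, z.length < s →
    (D z).card ≤ bd z.length) {q : List Bool} (hq : q.length ≤ t) : (pl D s q).card ≤ bd t := by
  rcases q with _ | ⟨b, z⟩
  · simp [pl]
  · cases b
    · simp only [pl, Finset.card_singleton]
      exact one_le_bd t
    · simp only [pl]
      split_ifs with h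
      · refine (hD z h).trans (bd_mono ?_)
        rw [List.length_cons] at hq
        omega
      · simp

theorem main (u : List Bool) : ∃ D : Finset (List Bool), D.card ≤ bd u.length ∧
    ∀ A A' : Oracle, (∀ q ∈ D, A q = A' q) → tool A u = tool A' u := by
  induction hs : u.length using Nat.strong_induction_on generalizing u with
  | _ s ih =>
  have ih' : ∀ z : List Bool, ∃ D : Finset (List Bool), z.length < s → (D.card ≤ bd z.length ∧
      ∀ A A' : Oracle, (∀ q ∈ D, A q = A' q) → tool A z = tool A' z) := by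
    intro z
    by_cases hz : z.length < s
    · obtain ⟨D, hD⟩ := ih z.length hz z rfl
      exact ⟨D, fun _ => hD⟩
    · exact ⟨∅, fun h => absurd h hz⟩
  choose D hD using ih'
  by_cases hu : ∃ (I : Inst) (m : ℕ), u = tc I m ∧ ((bits I).length + 1) ^ 4 ≤ m ∧ 2 ^ I.param ≤ m
  · obtain ⟨I, m, hu, hm, hp⟩ := hu
    classical
    refine ⟨(vs I.blocks.sum I.labels.length).biUnion fun v => I.atoms.toFinset.biUnion fun a =>
      pl D s (a.2.flatMap fun i => I.labels.getD (v.getD i 0) []), ?_, ?_⟩
    · have hms : m ≤ s := by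
        rw [← hs, hu, tc_length]
        omega
      have h1 : ∀ v ∈ vs I.blocks.sum I.labels.length, (I.atoms.toFinset.biUnion fun a =>
          pl D s (a.2.flatMap fun i => I.labels.getD (v.getD i 0) [])).card ≤
            I.atoms.length * bd ((bits I).length ^ 2) := by
        intro v _
        refine (Finset.card_biUnion_le_card_mul _ _ (bd ((bits I).length ^ 2))
          fun a ha => ?_).trans (Nat.mul_le_mul_right _ (List.toFinset_card_le _))
        obtain ⟨r, l⟩ := a
        refine card_pl (fun z hz => (hD z hz).1) ?_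
        exact Pool.Agent.Y626.WC.flat_len I (List.mem_toFinset.1 ha) v
      refine (Finset.card_biUnion_le_card_mul _ _ _ h1).trans ?_
      refine (Nat.mul_le_mul_right _ (card_vs _ _)).trans ?_
      refine count (labels_le I) (p := I.param) ?_ (length_le_param I) (hm.trans hms)
        (hp.trans hms)
      unfold Inst.param
      omega
    · intro A A' hA
      have h1 : ∀ B : Oracle, tool B u = true ↔ I.Sat (join B (cut (tool B) s)) := by
        intro B
        rw [tool_spec, rule, decide_eq_true_iff, hs]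
        constructor
        · rintro ⟨J, n, h2, _, _, h3⟩
          obtain ⟨rfl, rfl⟩ := tc_inj (hu.symm.trans h2)
          exact h3
        · intro h3
          exact ⟨I, m, hu, hm, hp, h3⟩
      rw [Bool.eq_iff_iff, h1, h1]
      unfold Inst.Sat
      refine holds_congr' _ _ _ fun v hv1 hv2 => ?_
      rw [List.nil_append]
      have h3 : I.atoms.map (I.atom (join A (cut (tool A) s)) v) =
          I.atoms.map (I.atom (join A' (cut (tool A') s)) v) := by
        refine List.map_congr_left fun a ha => ?_
        have h4 : ∀ q ∈ pl D s (a.2.flatMap fun i => I.labels.getD (v.getD i 0) []),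
            A q = A' q := fun q hq => hA q (Finset.mem_biUnion.2 ⟨v, mem_vs hv1 hv2,
              Finset.mem_biUnion.2 ⟨a, List.mem_toFinset.2 ha, hq⟩⟩)
        obtain ⟨r, l⟩ := a
        cases r with
        | zero =>
          show join A (cut (tool A) s) (l.flatMap fun i => I.labels.getD (v.getD i 0) []) =
            join A' (cut (tool A') s) (l.flatMap fun i => I.labels.getD (v.getD i 0) [])
          change ∀ q ∈ pl D s (l.flatMap fun i => I.labels.getD (v.getD i 0) []),
            A q = A' q at h4
          revert h4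
          generalize (l.flatMap fun i => I.labels.getD (v.getD i 0) []) = q
          intro h4
          rcases q with _ | ⟨b, z⟩
          · rfl
          · cases b
            · exact h4 z (by simp [pl])
            · show cut (tool A) s z = cut (tool A') s z
              unfold cut
              by_cases hz : z.length < s
              · rw [if_pos hz, if_pos hz]
                refine (hD z hz).2 A A' fun q hq => h4 q ?_
                simp only [pl]
                rw [if_pos hz]
                exact hq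
              · rw [if_neg hz, if_neg hz]
        | succ r => rfl
      rw [h3]
  · refine ⟨∅, by simp, fun A A' _ => ?_⟩
    have h1 : ∀ B : Oracle, tool B u = false := by
      intro B
      rw [tool_spec, rule, decide_eq_false_iff_not]
      rintro ⟨J, n, h2, h3, h4, _⟩
      exact hu ⟨J, n, h2, h3, h4⟩
    rw [h1, h1]

end DEP

theorem t_DEP : S_DEP := by
  choose D hD using DEP.main
  exact ⟨D, fun u => (hD u).1, fun A A' u h => (hD u).2 A A' h⟩

end Pool.Agent.H20WP
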