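import Pool.Agent.H20WP.Stm

/-!
# Piece NUM (helper61)
-/

set_option autoImplicit false

namespace Pool.Agent.H20WP

namespace NUMx

theorem poly_le (P : Polynomial ℕ) {e n : ℕ} (he : P.natDegree ≤ e) (hn : 1 ≤ n) :
    P.eval n ≤ P.eval 1 * n ^ e := by
  rw [Polynomial.eval_eq_sum_range, Polynomial.eval_eq_sum_range, Finset.sum_mul]
  refine Finset.sum_le_sum fun i hi => ?_
  rw [one_pow, mul_one]
  exact Nat.mul_le_mul_left _ (Nat.pow_le_pow_right hn ((Finset.mem_range_succ_iff.1 hi).trans he))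

theorem poly_mono (P : Polynomial ℕ) {a b : ℕ} (h : a ≤ b) : P.eval a ≤ P.eval b := by
  rw [Polynomial.eval_eq_sum_range, Polynomial.eval_eq_sum_range]
  exact Finset.sum_le_sum fun i _ => Nat.mul_le_mul_left _ (Nat.pow_le_pow_left h _)

/-- the value at `s + r (2 ^ m)` -/
theorem comp_le (P r : Polynomial ℕ) (d s : ℕ) (hr : r.natDegree ≤ d) : ∃ C : ℕ, ∀ m : ℕ,
    P.eval (s + r.eval (2 ^ m)) ≤ 2 ^ (C + m * (d * P.natDegree)) := by
  refine ⟨P.eval 1 + (s + r.eval 1 + 1) * P.natDegree, fun m => ?_⟩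
  have hn : 1 ≤ 2 ^ m := Nat.one_le_two_pow
  have h3 : 1 ≤ (2 ^ m) ^ d := Nat.one_le_pow _ _ hn
  have h1 : s + r.eval (2 ^ m) ≤ (s + r.eval 1 + 1) * (2 ^ m) ^ d := by
    have h2 := poly_le r hr hn
    have h5 : s ≤ s * (2 ^ m) ^ d := Nat.le_mul_of_pos_right _ h3
    nlinarith
  have h4 : s + r.eval 1 + 1 ≤ 2 ^ (s + r.eval 1 + 1) := Nat.lt_two_pow_self.le
  have h6 : P.eval 1 ≤ 2 ^ P.eval 1 := Nat.lt_two_pow_self.le
  have h7 : 1 ≤ (s + r.eval 1 + 1) * (2 ^ m) ^ d := Nat.mul_pos (Nat.succ_pos _) h3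
  calc P.eval (s + r.eval (2 ^ m)) ≤ P.eval ((s + r.eval 1 + 1) * (2 ^ m) ^ d) := poly_mono P h1
    _ ≤ P.eval 1 * ((s + r.eval 1 + 1) * (2 ^ m) ^ d) ^ P.natDegree := poly_le P le_rfl h7
    _ ≤ 2 ^ P.eval 1 * (2 ^ (s + r.eval 1 + 1) * (2 ^ m) ^ d) ^ P.natDegree :=
        Nat.mul_le_mul h6 (Nat.pow_le_pow_left (Nat.mul_le_mul_right _ h4) _)
    _ = 2 ^ (P.eval 1 + (s + r.eval 1 + 1) * P.natDegree + m * (d * P.natDegree)) := by
        rw [mul_pow, ← pow_mul, ← pow_mul, ← pow_mul, ← pow_add, ← pow_add]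
        congr 1
        ring

theorem cube_le (m : ℕ) (hm : 10 ≤ m) : m ^ 3 ≤ 2 ^ m := by
  induction m, hm using Nat.le_induction with
  | base => norm_num
  | succ m hm ih =>
    have h : (m + 1) ^ 3 ≤ 2 * m ^ 3 := by nlinarith [sq_nonneg m, Nat.mul_le_mul hm hm]
    rw [pow_succ 2 m]
    omega

theorem growth (A B C D m' : ℕ) (h : 9 + 2 * (A + B + 4 * (C + D + 1) ^ 2) ≤ m') :
    A + (m' + 1) * B + 4 * (C + (m' + 1) * D + 1) ^ 2 ≤ 2 ^ m' := by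
  obtain ⟨m, hm⟩ : ∃ m, m = m' + 1 := ⟨_, rfl⟩
  rw [← hm]
  have hm1 : 1 ≤ m := by omega
  obtain ⟨E, hE⟩ : ∃ E, E = A + B + 4 * (C + D + 1) ^ 2 := ⟨_, rfl⟩
  have h1 : A + m * B + 4 * (C + m * D + 1) ^ 2 ≤ E * m ^ 2 := by
    have e1 : A ≤ A * m ^ 2 := Nat.le_mul_of_pos_right _ (by positivity)
    have e2 : m * B ≤ B * m ^ 2 := by
      have : m ≤ m ^ 2 := by nlinarith
      nlinarith
    have e3 : C + m * D + 1 ≤ (C + D + 1) * m := by nlinarith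
    have e4 : (C + m * D + 1) ^ 2 ≤ ((C + D + 1) * m) ^ 2 := Nat.pow_le_pow_left e3 2
    rw [mul_pow] at e4
    rw [hE]
    nlinarith
  have h2 := cube_le m (by omega)
  have h3 : 2 * E * m ^ 2 ≤ m ^ 3 := by
    have : 2 * E ≤ m := by omega
    calc 2 * E * m ^ 2 ≤ m * m ^ 2 := Nat.mul_le_mul_right _ this
      _ = m ^ 3 := by ring
  have h4 : 2 ^ m = 2 * 2 ^ m' := by rw [hm, pow_succ, mul_comm]
  rw [h4] at h2
  have h5 : 2 * (E * m ^ 2) ≤ 2 * 2 ^ m' := by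
    rw [← mul_assoc]
    exact h3.trans h2
  omega

end NUMx

open NUMx in
theorem t_NUM : S_NUM := by
  intro p r d hr
  refine ⟨d * p.natDegree + 1, fun q s ℓ => ?_⟩
  obtain ⟨Cp, hp⟩ := comp_le p (r (d * p.natDegree + 1)) d s (hr _)
  obtain ⟨Cq, hq⟩ := comp_le q (r (d * p.natDegree + 1)) d s (hr _)
  obtain ⟨B, hB⟩ : ∃ B, B = d * p.natDegree := ⟨_, rfl⟩
  obtain ⟨D, hD⟩ : ∃ D, D = d * q.natDegree := ⟨_, rfl⟩
  rw [← hB] at hp hq ⊢
  rw [← hD] at hq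
  obtain ⟨m', hm'⟩ : ∃ m', m' = 9 + ℓ + 2 * (Cp + B + 4 * (Cq + D + 1) ^ 2) + Cp := ⟨_, rfl⟩
  have hg := growth Cp B Cq D m' (by omega)
  have hlog : Nat.log 2 (2 ^ (m' + 1)) = m' + 1 := Nat.log_pow one_lt_two _
  have hhalf : 2 ^ (m' + 1) / 2 = 2 ^ m' := by
    rw [pow_succ]
    exact Nat.mul_div_cancel _ (by norm_num)
  refine ⟨2 ^ (m' + 1), ?_, ?_, ?_, ?_⟩
  · have : m' + 1 < 2 ^ (m' + 1) := Nat.lt_two_pow_self
    omega
  · rw [hlog]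
    nlinarith
  · rw [hhalf]
    have h1 := hp (m' + 1)
    have h2 := hq (m' + 1)
    have h3 : bd (q.eval (s + (r (B + 1)).eval (2 ^ (m' + 1)))) ≤
        2 ^ (4 * (Cq + (m' + 1) * D + 1) ^ 2) := by
      unfold bd
      refine Nat.pow_le_pow_right (by norm_num) (Nat.mul_le_mul_left _ (Nat.pow_le_pow_left
        (Nat.add_le_add_right ?_ 1) 2))
      calc Nat.log 2 (q.eval (s + (r (B + 1)).eval (2 ^ (m' + 1)))) ≤
          Nat.log 2 (2 ^ (Cq + (m' + 1) * D)) := Nat.log_mono_right h2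
        _ = _ := Nat.log_pow one_lt_two _
    refine (Nat.mul_le_mul h1 h3).trans ?_
    rw [← pow_add]
    exact Nat.pow_le_pow_right (by norm_num) hg
  · rw [hhalf, hlog]
    have h1 := hp (m' + 1)
    have h4 : Cp + (m' + 1) * B < m' + (B + 1) * (m' + 1 + 1) := by nlinarith
    have h5 : p.eval (s + (r (B + 1)).eval (2 ^ (m' + 1))) <
        2 ^ m' * 2 ^ ((B + 1) * (m' + 1 + 1)) := by
      rw [← pow_add]
      exact h1.trans_lt (Nat.pow_lt_pow_right (by norm_num) h4)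
    have h6 : 2 ^ (m' + 1) * 2 ^ ((B + 1) * (m' + 1 + 1)) =
        2 ^ m' * 2 ^ ((B + 1) * (m' + 1 + 1)) + 2 ^ m' * 2 ^ ((B + 1) * (m' + 1 + 1)) := by
      rw [pow_succ 2 m']
      ring
    rw [h6]
    exact Nat.add_lt_add_right h5 _

end Pool.Agent.H20WP
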