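import Pool.Agent.H20WP.Stm

set_option autoImplicit false

namespace Pool.Agent.H20WP

open Pool.Agent.NPC Pool.Agent.H620R2.Gauge Pool.Agent.TH678.GC Pool.Agent.Y626.WG

theorem t_TR : S_TR := by
  classical
  intro M
  obtain ⟨b, hb⟩ := M.next_length
  refine ⟨b, fun x => ?_⟩
  have key : ∀ (n : ℕ) (a : List Bool), a.length + n ≤ M.p.eval x.length →
      ∃ Qf : List Bool → Finset (List Bool),
        (∀ c, (Qf c).card ≤ n ∧ ∀ q ∈ Qf c, q.length ≤ b.eval x.length) ∧
        ∀ O : Oracle, ∃ c : List Bool, c.length = n ∧
          ∀ O' : Oracle, (∀ q ∈ Qf c, O' q = O q) → M.run O' x n a = M.run O x n a := by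
    intro n
    induction n with
    | zero =>
      intro a _
      exact ⟨fun _ => ∅, fun c => ⟨by simp, by simp⟩, fun O => ⟨[], rfl, fun O' _ => rfl⟩⟩
    | succ n ih =>
      intro a ha
      have hD := hb x a (by omega)
      have hstop : (∀ O O' : Oracle, M.run O' x (n + 1) a = M.run O x (n + 1) a) →
          ∃ Qf : List Bool → Finset (List Bool),
        (∀ c, (Qf c).card ≤ n + 1 ∧ ∀ q ∈ Qf c, q.length ≤ b.eval x.length) ∧
        ∀ O : Oracle, ∃ c : List Bool, c.length = n + 1 ∧
          ∀ O' : Oracle, (∀ q ∈ Qf c, O' q = O q) →
            M.run O' x (n + 1) a = M.run O x (n + 1) a := by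
        intro h
        exact ⟨fun _ => ∅, fun c => ⟨by simp, by simp⟩,
          fun O => ⟨List.replicate (n + 1) true, by simp, fun O' _ => h O O'⟩⟩
      rcases hq : M.D (pairBits x a) with _ | ⟨c, q⟩
      · exact hstop fun O O' => by simp only [Alg.run, hq]
      · cases c with
        | true => exact hstop fun O O' => by simp only [Alg.run, hq]
        | false =>
          obtain ⟨Qt, ht1, ht2⟩ := ih (a ++ [true]) (by simp; omega)
          obtain ⟨Qe, he1, he2⟩ := ih (a ++ [false]) (by simp; omega)
          rw [hq, List.length_cons] at hD
          refine ⟨fun c => match c with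
            | [] => ∅
            | true :: c => insert q (Qt c)
            | false :: c => insert q (Qe c), ?_, ?_⟩
          · intro c
            match c with
            | [] => exact ⟨by simp, by simp⟩
            | true :: c =>
              refine ⟨(Finset.card_insert_le _ _).trans (Nat.succ_le_succ (ht1 c).1), ?_⟩
              intro z hz
              rcases Finset.mem_insert.1 hz with rfl | hz
              · omega
              · exact (ht1 c).2 z hz
            | false :: c =>
              refine ⟨(Finset.card_insert_le _ _).trans (Nat.succ_le_succ (he1 c).1), ?_⟩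
              intro z hz
              rcases Finset.mem_insert.1 hz with rfl | hz
              · omega
              · exact (he1 c).2 z hz
          · intro O
            cases hO : O q with
            | true =>
              obtain ⟨c, hc1, hc2⟩ := ht2 O
              refine ⟨true :: c, by simp [hc1], fun O' h => ?_⟩
              have h1 : O' q = true := by rw [h q (Finset.mem_insert_self _ _), hO]
              simp only [Alg.run, hq, h1, hO]
              exact hc2 O' fun z hz => h z (Finset.mem_insert_of_mem hz)
            | false =>
              obtain ⟨c, hc1, hc2⟩ := he2 O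
              refine ⟨false :: c, by simp [hc1], fun O' h => ?_⟩
              have h1 : O' q = false := by rw [h q (Finset.mem_insert_self _ _), hO]
              simp only [Alg.run, hq, h1, hO]
              exact hc2 O' fun z hz => h z (Finset.mem_insert_of_mem hz)
  obtain ⟨Qf, h1, h2⟩ := key (M.p.eval x.length) [] (by simp)
  exact ⟨Qf, h1, h2⟩

end Pool.Agent.H20WP
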