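import Pool.Agent.H20WP.Stm

/-! Project H20WP, piece VER (helper34): the problem is in `W[P]` -/

set_option autoImplicit false

namespace Pool.Agent.H20WP

open Pool.Agent.NPC Pool.Agent.H622R2 Pool.Agent.H620R2.Gauge Pool.Agent.TH678.GC Pool.Agent.Y626.WG

namespace VERP

/-- the word -/
def vw (y : List Bool) : List Bool := (unpair y).1

/-- the instance -/
def vx (y : List Bool) : List Bool × List Bool :=
  match unbits (List Bool × List Bool) (unpair (unpair y).2).2 with
  | none => ([], [])
  | some x => x

theorem poly_vw : Poly vw := Poly.fst poly_unpair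

theorem poly_vx : Poly vx := by
  have h1 : Poly (fun y : List Bool => unbits (List Bool × List Bool) (unpair (unpair y).2).2) :=
    poly_unbits.comp (Poly.snd (poly_unpair.comp (Poly.snd poly_unpair)))
  refine NPC.Poly.congr (NPC.Poly.optCases (g := fun _ => (([], []) : List Bool × List Bool)) (h := fun _ x => x) h1
    (NPC.Poly.const _) (Poly.snd Poly.id)) fun y => ?_
  rw [vx]
  cases unbits (List Bool × List Bool) (unpair (unpair y).2).2 <;> rfl

/-- the questions -/
def qs (y : List Bool) : List (List Bool) :=
  (List.range (vx y).1.length).map fun j =>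
    false :: true :: pairBits (vw y) (List.replicate (min j (vx y).1.length) true)

theorem poly_qs : Poly qs := by
  have hn : UPoly (fun y : List Bool => (vx y).1.length) := UPoly.length (Poly.fst poly_vx)
  have h1 : Poly (fun p : List Bool × ℕ => vx p.1) := poly_vx.comp (Poly.fst Poly.id)
  have h2 : UPoly (fun p : List Bool × ℕ => (vx p.1).1.length) := UPoly.length (Poly.fst h1)
  have h3 : UPoly (fun p : List Bool × ℕ => min p.2 (vx p.1).1.length) :=
    UPoly.of_le (Poly.min (Poly.snd Poly.id) h2.toPoly) h2 (fun p => min_le_right _ _)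
  have h4 : Poly (fun p : List Bool × ℕ =>
      false :: true :: pairBits (vw p.1) (List.replicate (min p.2 (vx p.1).1.length) true)) :=
    Poly.cons (NPC.Poly.const false) (Poly.cons (NPC.Poly.const true)
      (poly_pairBits (poly_vw.comp (Poly.fst Poly.id)) (Pool.Agent.TH678.WP.poly_replicate h3 true)))
  exact NPC.Poly.map (F := fun (y : List Bool) (j : ℕ) =>
    false :: true :: pairBits (vw y) (List.replicate (min j (vx y).1.length) true)) hn.range h4

/-- the answers to the questions, with the test of the length -/
def H1 (p : List Bool × List Bool) : List Bool :=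
  pairBits (if (vw p.1).length = (vx p.1).2.length * (Nat.log 2 (vx p.1).1.length + 1) then [true] else [])
    (false :: false :: p.2)

theorem poly_H1 : Poly H1 := by
  have h0 : Poly (fun p : List Bool × List Bool => vx p.1) := poly_vx.comp (Poly.fst Poly.id)
  have h1 : UPoly (fun p : List Bool × List Bool => (vx p.1).2.length * (Nat.log 2 (vx p.1).1.length + 1)) :=
    UPoly.mul (UPoly.length (Poly.snd h0)) (Pool.Agent.TH678.WP.uPoly_log (Poly.fst h0))
  have h2 : Poly (fun p : List Bool × List Bool => (vw p.1).length) :=
    Poly.length (poly_vw.comp (Poly.fst Poly.id))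
  exact poly_pairBits (Poly.ite (Poly.decide_eq h2 h1.toPoly) (NPC.Poly.const _) (NPC.Poly.const _))
    (Poly.cons (NPC.Poly.const false) (Poly.cons (NPC.Poly.const false) (Poly.snd Poly.id)))

/-- the last answer -/
def H2 (p : List Bool × List Bool) : List Bool := if (unpair p.1).1 = [true] then p.2 else []

theorem poly_H2 : Poly H2 :=
  Poly.ite (Poly.decide_eq (Poly.fst (poly_unpair.comp (Poly.fst Poly.id))) (NPC.Poly.const _))
    (Poly.snd Poly.id) (NPC.Poly.const _)

/-- the verifier -/
def V (O : Oracle) (y : List Bool) : List Bool :=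
  H2 (H1 (y, (qs y).map O), ([(unpair (H1 (y, (qs y).map O))).2] : List (List Bool)).map O)

theorem isFP_V (O : Oracle) : IsFP O (V O) := by
  have h1 : IsFP O (fun y => H1 (y, (qs y).map O)) := IsFP.tt poly_qs poly_H1
  have h2 : IsFP O (fun z => H2 (z, ([(unpair z).2] : List (List Bool)).map O)) :=
    IsFP.tt (Q := fun z => [(unpair z).2]) (Poly.cons (Poly.snd poly_unpair) (NPC.Poly.const [])) poly_H2
  exact IsFP.comp (G := fun z => H2 (z, ([(unpair z).2] : List (List Bool)).map O)) h2 h1

theorem V_iff (A : Oracle) (w : List Bool) (x : List Bool × List Bool) :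
    V (ora A) (pairBits w (pairBits [] (bits x))) = [true] ↔
      w.length = x.2.length * (Nat.log 2 x.1.length + 1) ∧
      A (false :: (List.range x.1.length).map fun j => A (true :: pairBits w (List.replicate j true))) = true := by
  have e1 : vw (pairBits w (pairBits [] (bits x))) = w := by rw [vw, unpair_pairBits]
  have e2 : vx (pairBits w (pairBits [] (bits x))) = x := by
    rw [vx, unpair_pairBits, unpair_pairBits, unbits_bits]
  have e3 : (qs (pairBits w (pairBits [] (bits x)))).map (ora A) =
      (List.range x.1.length).map fun j => A (true :: pairBits w (List.replicate j true)) := by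
    rw [qs, e1, e2, List.map_map]
    apply List.map_congr_left
    intro j hj
    rw [List.mem_range] at hj
    rw [Function.comp_apply, min_eq_left hj.le]
    rfl
  unfold V
  rw [e3, H1, e1, e2]
  dsimp only
  rw [H2]
  dsimp only
  rw [unpair_pairBits]
  dsimp only
  by_cases h : w.length = x.2.length * (Nat.log 2 x.1.length + 1)
  · rw [if_pos h, if_pos rfl]
    simp only [List.map_cons, List.map_nil, List.cons.injEq, and_true]
    constructor
    · intro h1
      exact ⟨h, h1⟩
    · intro h1
      exact h1.2
  · rw [if_neg h, if_neg (by simp)]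
    constructor
    · intro h1
      exact absurd h1 (by simp)
    · intro h1
      exact absurd h1.1 h

end VERP

theorem t_VER : S_VER := by
  intro A
  refine ⟨fun _ => [], fun k => k, VERP.V (ora A), Computable.const _, Computable.id,
    VERP.isFP_V _, fun x => ?_⟩
  have hlen : x.1.length ≤ (bits x).length := by
    rw [bits_length]
    obtain ⟨a, b⟩ := x
    rw [sz_pair]
    have := length_lt_sz a
    show a.length ≤ _
    omega
  constructor
  · rintro ⟨w, hw, h⟩
    refine ⟨w, ?_, (VERP.V_iff A w x).2 ⟨hw, h⟩⟩
    rw [hw]
    exact Nat.mul_le_mul le_rfl (Nat.add_le_add_right (Nat.log_mono_right hlen) 1)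
  · rintro ⟨w, _, h⟩
    exact ⟨w, ((VERP.V_iff A w x).1 h).1, ((VERP.V_iff A w x).1 h).2⟩

end Pool.Agent.H20WP
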