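import Pool.Agent.H20WP.Fin
import Pool.Agent.H20WP.COL
import Pool.Agent.H20WP.DEP
import Pool.Agent.H20WP.TR
import Pool.Agent.H20WP.CNT
import Pool.Agent.H20WP.NUM
import Pool.Agent.H20WP.VER

/-!
# Project H20WP: the theorem
-/

set_option autoImplicit false

namespace Pool.Agent.H20WP

open Pool.Agent.NPC Pool.Agent.H620R2.Gauge Pool.Agent.Y626.WG
open Pool.Agent.Y626.WC (InFPT)
open Pool.Agent.H20PW (InFPTn)

theorem final : ∃ O : Oracle,
    (∀ (t : ℕ) (α : Type) [TEnc α] (κ : α → ℕ) (P : α → Prop),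
        (InW t O κ P ↔ InFPT O κ P) ∧ (InA t O κ P → InFPTn O κ P)) ∧
      ∃ P : List Bool × List Bool → Prop,
        InWPe O (fun x => x.2.length) P ∧ ¬ InFPTn O (fun x => x.2.length) P :=
  main t_DEP t_TR t_CNT t_NUM t_VER t_COL colA

end Pool.Agent.H20WP
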