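import Pool.Agent.H20WP.Stm
import Pool.Agent.H20PW.Defs

/-!
# Project H20WP: the assembly
-/

set_option autoImplicit false

namespace Pool.Agent.H20WP

open Pool.Agent.NPC Pool.Agent.H620R2.Gauge Pool.Agent.TH678.GC Pool.Agent.Y626.WG
  Pool.Agent.H622R2 Pool.Agent.H591R3.PHG Pool.Agent.TH678.RS Pool.Agent.H622R2.Exp Filter
open Pool.Agent.Y626.WC (cut exists_self InFPT inW_of_inFPT)
open Pool.Agent.H20PW (InFPTn)

/-- the instance -/
def xn (n k : ℕ) : List Bool × List Bool := (List.replicate n true, List.replicate k true)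

/-- the algorithm is right on the instance -/
def Ok (M : Alg) (σ : List Bool) (n k : ℕ) (A : Oracle) : Prop :=
  ∃ b : Bool, M.out (ora A) (pairBits σ (bits (xn n k))) = some [b] ∧ (Pb A (xn n k) ↔ b = true)

/-- the length of the code -/
noncomputable def rr (k : ℕ) : Polynomial ℕ :=
  Polynomial.C 4 * Polynomial.X + Polynomial.C (4 * k + 3)

theorem rr_deg (k : ℕ) : (rr k).natDegree ≤ 1 := by
  unfold rr
  exact Polynomial.natDegree_linear_le

theorem bits_len (n k : ℕ) : (bits (xn n k)).length ≤ (rr k).eval n := by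
  rw [bits_length]
  unfold xn
  rw [sz_pair]
  have h1 := sz_listBool_le (List.replicate n true)
  have h2 := sz_listBool_le (List.replicate k true)
  rw [List.length_replicate] at h1 h2
  simp only [rr, Polynomial.eval_add, Polynomial.eval_mul, Polynomial.eval_C, Polynomial.eval_X]
  omega

theorem bd_mono {m n : ℕ} (h : m ≤ n) : bd m ≤ bd n := by
  unfold bd
  refine Nat.pow_le_pow_right (by norm_num) (Nat.mul_le_mul_left _ (Nat.pow_le_pow_left ?_ _))
  exact Nat.add_le_add_right (Nat.log_mono_right h) 1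

theorem bd_pos (n : ℕ) : 1 ≤ bd n := Nat.one_le_two_pow

/-- the places behind a question -/
def pl (D : List Bool → Finset (List Bool)) : List Bool → Finset (List Bool)
  | [] => ∅
  | false :: z => {z}
  | true :: z => D z

theorem pl_card {D : List Bool → Finset (List Bool)} (hD : ∀ u, (D u).card ≤ bd u.length)
    (q : List Bool) : (pl D q).card ≤ bd q.length := by
  rcases q with _ | ⟨b, z⟩
  · exact Nat.zero_le _
  · cases b with
    | false =>
      show ({z} : Finset (List Bool)).card ≤ _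
      rw [Finset.card_singleton]
      exact bd_pos _
    | true =>
      refine (hD z).trans (bd_mono ?_)
      rw [List.length_cons]
      exact Nat.le_succ _

theorem pl_agree {D : List Bool → Finset (List Bool)} (hD : ∀ (A A' : Oracle) (u : List Bool),
    (∀ q ∈ D u, A q = A' q) → tool A u = tool A' u) {A A' : Oracle} {q : List Bool}
    (h : ∀ z ∈ pl D q, A z = A' z) : ora A q = ora A' q := by
  rcases q with _ | ⟨b, z⟩
  · rfl
  · cases b with
    | false => exact h z (Finset.mem_singleton_self z)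
    | true => exact hD A A' z h

/-- the table -/
def Tbl {K n : ℕ} (T : (Fin K → Bool) → (Fin n → Bool)) (z : List Bool) : Prop :=
  ∃ (w : Fin K → Bool) (j : Fin n),
    z = true :: pairBits (List.ofFn w) (List.replicate (j : ℕ) true) ∧ T w j = true

open Classical in
/-- the oracle of a table, with goals -/
noncomputable def AT (A₀ : Oracle) (ℓ : ℕ) {K n : ℕ} (T : (Fin K → Bool) → (Fin n → Bool))
    (g : Finset (Fin n → Bool)) : Oracle := fun z =>
  if z.length ≤ ℓ then A₀ z else decide (Tbl T z ∨ ∃ s ∈ g, z = false :: List.ofFn s)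

theorem AT_addr (A₀ : Oracle) {ℓ K n : ℕ} (hK : ℓ < K) (T : (Fin K → Bool) → (Fin n → Bool))
    (g : Finset (Fin n → Bool)) (w : Fin K → Bool) (j : Fin n) :
    AT A₀ ℓ T g (true :: pairBits (List.ofFn w) (List.replicate (j : ℕ) true)) = T w j := by
  classical
  unfold AT
  rw [if_neg (by
    rw [List.length_cons, length_pairBits, List.length_ofFn]
    omega)]
  rw [Bool.eq_iff_iff, decide_eq_true_eq]
  constructor
  · rintro (⟨w', j', h1, h2⟩ | ⟨s, _, h1⟩)
    · rw [List.cons.injEq] at h1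
      have h3 := congrArg unpair h1.2
      rw [unpair_pairBits, unpair_pairBits, Prod.mk.injEq] at h3
      have h4 : w = w' := List.ofFn_injective h3.1
      have h5 : j = j' := by
        have := congrArg List.length h3.2
        rw [List.length_replicate, List.length_replicate] at this
        exact Fin.ext this
      rw [h4, h5]
      exact h2
    · rw [List.cons.injEq] at h1
      exact absurd h1.1 (by simp)
  · intro h
    exact Or.inl ⟨w, j, rfl, h⟩

theorem AT_goal (A₀ : Oracle) {ℓ K n : ℕ} (hn : ℓ < n) (T : (Fin K → Bool) → (Fin n → Bool))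
    (g : Finset (Fin n → Bool)) (s : Fin n → Bool) :
    AT A₀ ℓ T g (false :: List.ofFn s) = true ↔ s ∈ g := by
  classical
  unfold AT
  rw [if_neg (by
    rw [List.length_cons, List.length_ofFn]
    omega), decide_eq_true_eq]
  constructor
  · rintro (⟨w', j', h1, h2⟩ | ⟨s', h0, h1⟩)
    · rw [List.cons.injEq] at h1
      exact absurd h1.1 (by simp)
    · rw [List.cons.injEq] at h1
      rw [List.ofFn_injective h1.2]
      exact h0
  · intro h
    exact Or.inr ⟨s, h, rfl⟩

theorem AT_low (A₀ : Oracle) {ℓ K n : ℕ} (T : (Fin K → Bool) → (Fin n → Bool))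
    (g : Finset (Fin n → Bool)) {z : List Bool} (hz : z.length ≤ ℓ) :
    AT A₀ ℓ T g z = A₀ z := by
  unfold AT
  rw [if_pos hz]

theorem AT_diff (A₀ : Oracle) {ℓ K n : ℕ} (T : (Fin K → Bool) → (Fin n → Bool))
    (s : Fin n → Bool) {z : List Bool} (hz : z ≠ false :: List.ofFn s) :
    AT A₀ ℓ T {s} z = AT A₀ ℓ T ∅ z := by
  classical
  unfold AT
  by_cases h : z.length ≤ ℓ
  · rw [if_pos h, if_pos h]
  · rw [if_neg h, if_neg h, Bool.eq_iff_iff, decide_eq_true_eq, decide_eq_true_eq]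
    constructor
    · rintro (h1 | ⟨s', h0, h1⟩)
      · exact Or.inl h1
      · rw [Finset.mem_singleton] at h0
        rw [h0] at h1
        exact absurd h1 hz
    · rintro (h1 | ⟨s', h0, h1⟩)
      · exact Or.inl h1
      · exact absurd h0 (Finset.notMem_empty _)

theorem Pb_AT (A₀ : Oracle) {ℓ n k : ℕ} (hn : ℓ < n) (hK : ℓ < k * (Nat.log 2 n + 1))
    (T : (Fin (k * (Nat.log 2 n + 1)) → Bool) → (Fin n → Bool)) (g : Finset (Fin n → Bool)) :
    Pb (AT A₀ ℓ T g) (xn n k) ↔ ∃ w, T w ∈ g := by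
  have h1 : ∀ w : Fin (k * (Nat.log 2 n + 1)) → Bool,
      ((List.range n).map fun j => AT A₀ ℓ T g
        (true :: pairBits (List.ofFn w) (List.replicate j true))) = List.ofFn (T w) := by
    intro w
    refine List.ext_getElem (by simp) fun i h2 h3 => ?_
    rw [List.getElem_map, List.getElem_range, List.getElem_ofFn]
    rw [List.length_ofFn] at h3
    exact AT_addr A₀ hK T g w ⟨i, h3⟩
  unfold Pb xn
  simp only [List.length_replicate]
  constructor
  · rintro ⟨w, hw, h2⟩
    obtain ⟨w', rfl⟩ : ∃ w' : Fin (k * (Nat.log 2 n + 1)) → Bool, w = List.ofFn w' := by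
      refine ⟨fun i => w[(i : ℕ)]'(by rw [hw]; exact i.2), ?_⟩
      refine List.ext_getElem (by simp [hw]) fun i h2 h3 => ?_
      rw [List.getElem_ofFn]
    rw [h1 w'] at h2
    exact ⟨w', (AT_goal A₀ hn T g (T w')).1 h2⟩
  · rintro ⟨w, hw⟩
    refine ⟨List.ofFn w, List.length_ofFn, ?_⟩
    rw [h1 w]
    exact (AT_goal A₀ hn T g (T w)).2 hw

/-- one requirement -/
theorem one (hD : S_DEP) (hT : S_TR) (hC : S_CNT) (hN : S_NUM) (M : Alg) :
    ∃ k : ℕ, ∀ (σ : List Bool) (A₀ : Oracle) (ℓ : ℕ), ∃ A : Oracle,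
      (∀ z : List Bool, z.length ≤ ℓ → A z = A₀ z) ∧ ∃ n, ¬ Ok M σ n k A := by
  classical
  obtain ⟨D, hD1, hD2⟩ := hD
  obtain ⟨qb, hqb⟩ := hT M
  obtain ⟨k, hk⟩ := hN M.p rr 1 rr_deg
  refine ⟨k, fun σ A₀ ℓ => ?_⟩
  obtain ⟨n, hn1, hn2, hn3, hn4⟩ := hk qb (2 * σ.length + 1) ℓ
  obtain ⟨Qf, hQ1, hQ2⟩ := hqb (pairBits σ (bits (xn n k)))
  set x := pairBits σ (bits (xn n k)) with hx
  set e : ℕ := 2 * σ.length + 1 + (rr k).eval n with he
  have hxl : x.length ≤ e := by
    rw [hx, length_pairBits]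
    have := bits_len n k
    omega
  obtain ⟨S, hS⟩ : ∃ S : List Bool → Finset (List Bool), ∀ c, S c = (Qf c).biUnion (pl D) :=
    ⟨fun c => (Qf c).biUnion (pl D), fun _ => rfl⟩
  have hScard : ∀ c, (S c).card ≤ 2 ^ (n / 2) := by
    intro c
    rw [hS]
    refine Finset.card_biUnion_le.trans ((Finset.sum_le_sum fun q hq => (pl_card hD1 q).trans
      (bd_mono (((hQ1 c).2 q hq).trans (eval_mono qb hxl)))).trans ?_)
    rw [Finset.sum_const, smul_eq_mul]
    exact (Nat.mul_le_mul_right _ (((hQ1 c).1).trans (eval_mono M.p hxl))).trans hn3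
  choose f hf1 hf2 using fun T : (Fin (k * (Nat.log 2 n + 1)) → Bool) → (Fin n → Bool) =>
    hQ2 (ora (AT A₀ ℓ T ∅))
  obtain ⟨G, hG⟩ : ∃ G : List Bool → Finset (Fin n → Bool), ∀ c, G c =
      Finset.univ.filter (fun s : Fin n → Bool => (false :: List.ofFn s) ∈ S c) :=
    ⟨fun c => Finset.univ.filter (fun s : Fin n → Bool => (false :: List.ofFn s) ∈ S c),
      fun _ => rfl⟩
  have hGcard : ∀ c, (G c).card ≤ 2 ^ (n / 2) := by
    intro c
    refine (Finset.card_le_card_of_injOn (fun s : Fin n → Bool => false :: List.ofFn s)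
      (fun s hs => ?_) (fun s _ s' _ h => ?_)).trans (hScard c)
    · rw [hG] at hs
      have hs' := Finset.mem_coe.1 hs
      exact Finset.mem_coe.2 (Finset.mem_filter.1 hs').2
    · dsimp only at h
      rw [List.cons.injEq] at h
      exact List.ofFn_injective h.2
  obtain ⟨T, w, hw⟩ := hC (k * (Nat.log 2 n + 1)) n (n / 2) (M.p.eval x.length) f G hf1 hGcard
    (by
      have := eval_mono M.p hxl
      omega)
  have hout : M.out (ora (AT A₀ ℓ T {T w})) x = M.out (ora (AT A₀ ℓ T ∅)) x := by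
    refine hf2 T _ fun q hq => ?_
    refine pl_agree hD2 fun z hz => AT_diff A₀ T (T w) ?_
    rintro rfl
    refine hw ?_
    rw [hG, Finset.mem_filter]
    refine ⟨Finset.mem_univ _, ?_⟩
    rw [hS]
    exact Finset.mem_biUnion.2 ⟨q, hq, hz⟩
  by_cases h1 : Ok M σ n k (AT A₀ ℓ T ∅)
  · refine ⟨AT A₀ ℓ T {T w}, fun z hz => AT_low A₀ T _ hz, n, ?_⟩
    rintro ⟨b, h2, h3⟩
    obtain ⟨b', h4, h5⟩ := h1
    rw [← hx] at h2 h4
    rw [hout, h4, Option.some.injEq, List.cons.injEq] at h2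
    rw [Pb_AT A₀ hn1 hn2] at h3 h5
    have h6 : b = true := h3.1 ⟨w, Finset.mem_singleton_self _⟩
    rw [← h2.1] at h6
    obtain ⟨w', hw'⟩ := h5.2 h6
    exact Finset.notMem_empty _ hw'
  · exact ⟨AT A₀ ℓ T ∅, fun z hz => AT_low A₀ T _ hz, n, h1⟩

/-- the requirements are open -/
theorem open_Ok (hD : S_DEP) (M : Alg) (σ : List Bool) (n k : ℕ) :
    IsOpen {A : Oracle | ¬ Ok M σ n k A} := by
  classical
  obtain ⟨D, hD1, hD2⟩ := hD
  obtain ⟨qb, hqb⟩ := M.out_local
  refine isOpen_of_loc' fun B hB => ?_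
  obtain ⟨Q, -, -, hQ⟩ := hqb (ora B) (pairBits σ (bits (xn n k)))
  obtain ⟨ℓ₁, hℓ₁⟩ : ∃ ℓ₁ : ℕ, ∀ z ∈ Q.biUnion (pl D), z.length ≤ ℓ₁ :=
    ⟨(Q.biUnion (pl D)).sup List.length, fun z hz => Finset.le_sup (f := List.length) hz⟩
  refine ⟨ℓ₁ + (2 * (k * (Nat.log 2 n + 1)) + 2 * n + 10), fun B' hB' => ?_⟩
  have h1 : M.out (ora B') (pairBits σ (bits (xn n k))) =
      M.out (ora B) (pairBits σ (bits (xn n k))) := by
    refine hQ _ fun q hq => ?_
    refine pl_agree hD2 fun z hz => (hB' z ?_).symm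
    exact (hℓ₁ z (Finset.mem_biUnion.2 ⟨q, hq, hz⟩)).trans (Nat.le_add_right _ _)
  have h2 : Pb B' (xn n k) ↔ Pb B (xn n k) := by
    unfold Pb xn
    simp only [List.length_replicate]
    refine exists_congr fun w => and_congr_right fun hw => ?_
    have h3 : ((List.range n).map fun j => B' (true :: pairBits w (List.replicate j true))) =
        (List.range n).map fun j => B (true :: pairBits w (List.replicate j true)) := by
      refine List.map_congr_left fun j hj => (hB' _ ?_).symm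
      rw [List.mem_range] at hj
      rw [List.length_cons, length_pairBits, hw, List.length_replicate]
      omega
    rw [h3, hB' _ (by
      rw [List.length_cons, List.length_map, List.length_range]
      omega)]
  rintro ⟨b, h3, h4⟩
  exact hB ⟨b, by rw [← h1]; exact h3, h2.symm.trans h4⟩

theorem main (hD : S_DEP) (hT : S_TR) (hC : S_CNT) (hN : S_NUM) (hV : S_VER) (hCol : S_COL)
    (hColA : ∀ (A : Oracle) (t : ℕ) (α : Type) [TEnc α] (κ : α → ℕ) (P : α → Prop),
      InA t (ora A) κ P → InFPTn (ora A) κ P) :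
    ∃ O : Oracle, (∀ (t : ℕ) (α : Type) [TEnc α] (κ : α → ℕ) (P : α → Prop),
        (InW t O κ P ↔ InFPT O κ P) ∧ (InA t O κ P → InFPTn O κ P)) ∧
      ∃ P : List Bool × List Bool → Prop,
        InWPe O (fun x => x.2.length) P ∧ ¬ InFPTn O (fun x => x.2.length) P := by
  choose kk hkk using one hD hT hC hN
  have hcn := CC.poly_countable
  have hc2 : Countable Alg := Alg.countable
  have hgen : ∀ᶠ A in residual Oracle, ∀ j : Alg × List Bool, ∃ n, ¬ Ok j.1 j.2 n (kk j.1) A := by
    refine eventually_countable_forall.2 fun j => ?_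
    have ho : IsOpen {A : Oracle | ∃ n, ¬ Ok j.1 j.2 n (kk j.1) A} := by
      have h1 : {A : Oracle | ∃ n, ¬ Ok j.1 j.2 n (kk j.1) A} =
          ⋃ n, {A : Oracle | ¬ Ok j.1 j.2 n (kk j.1) A} := by
        ext A
        simp
      rw [h1]
      exact isOpen_iUnion fun n => open_Ok hD _ _ _ _
    have hd : Dense {A : Oracle | ∃ n, ¬ Ok j.1 j.2 n (kk j.1) A} := by
      rw [dense_iff_inter_open]
      rintro U hU ⟨B₀, hB₀⟩
      obtain ⟨I, u, hu1, hu2⟩ := isOpen_pi_iff.1 hU B₀ hB₀
      obtain ⟨A, hA1, hA2⟩ := hkk j.1 j.2 B₀ (I.sup List.length)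
      refine ⟨A, hu2 fun z hz => ?_, hA2⟩
      rw [hA1 z (Finset.le_sup (f := List.length) hz)]
      exact (hu1 z hz).2
    exact residual_of_dense_open ho hd
  obtain ⟨A, hA⟩ := (dense_of_mem_residual hgen).nonempty
  rw [Set.mem_ofPred_eq] at hA
  refine ⟨ora A, fun t α _ κ P => ⟨⟨hCol A t α κ P, inW_of_inFPT⟩, hColA A t α κ P⟩,
    Pb A, hV A, ?_⟩
  rintro ⟨π, M, h⟩
  obtain ⟨n, hn⟩ := hA (M, π (kk M))
  refine hn ?_
  obtain ⟨b, h1, h2⟩ := h (xn n (kk M))
  refine ⟨b, ?_, h2⟩
  have h3 : (xn n (kk M)).2.length = kk M := by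
    unfold xn
    rw [List.length_replicate]
  dsimp only at h1
  rw [h3] at h1
  exact h1

end Pool.Agent.H20WP
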