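import Pool.Agent.Y626.WX.Dense
import Pool.Agent.Y626.WC.Fin

/-!
# Project H20WP (helper20), MP_41371c_lc

There is an oracle relative to which `W[t] = FPT` for all `t` and `FPT ≠ W[P]`.

The oracle is the disjoint union of `A` and `tool A`, where `tool A` answers padded instances of the model-checking
problem. In `A` the bits at `true :: pairBits w 1^j` (`w` of `k (log n + 1)` bits, `j < n`) form the strings `s w` of length
`n`, and the problem in `W[P]` asks whether `false :: s w` is in `A` for some `w`. Every value of `tool A` depends on few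
values of `A` at places which do not depend on `A`.

Every piece `X`: file `Pool/Agent/H20WP/X.lean`, `theorem t_X : S_X`, namespace `Pool.Agent.H20WP`.
-/

set_option autoImplicit false

namespace Pool.Agent.H20WP

open Pool.Agent.NPC Pool.Agent.H620R2.Gauge Pool.Agent.TH678.GC Pool.Agent.Y626.WG
open Pool.Agent.Y626.WC (cut exists_self InFPT)

/-- the code of the padded instance -/
def tc (I : Inst) (m : ℕ) : List Bool := pairBits (bits I) (List.replicate m true)

open Classical in
/-- the rule of the tool -/
noncomputable def rule (A : Oracle) (u : List Bool) (E : Oracle) : Bool :=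
  decide (∃ (I : Inst) (m : ℕ), u = tc I m ∧ ((bits I).length + 1) ^ 4 ≤ m ∧ 2 ^ I.param ≤ m ∧
    I.Sat (join A E))

/-- the tool -/
noncomputable def tool (A : Oracle) : Oracle := Classical.choose (exists_self (rule A))

theorem tool_spec (A : Oracle) (u : List Bool) : tool A u = rule A u (cut (tool A) u.length) :=
  Classical.choose_spec (exists_self (rule A)) u

/-- the oracle -/
noncomputable def ora (A : Oracle) : Oracle := join A (tool A)

/-- the bound for the number of the places -/
def bd (n : ℕ) : ℕ := 2 ^ (4 * (Nat.log 2 n + 1) ^ 2)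

/-- PIECE COL (80 lines): the tool makes `W[t]` easy. Let `π, g, R, M` be as in `InW`. New precomputation
`π' k = pairBits (π k) (replicate (2 ^ g k) true)`; on `z = pairBits (π' (κ a)) (bits a)` compute `bits (R a)`
(`isFP_total` of WC/Total.lean, `IsFP.precomp`), then ask `true :: tc (R a) m`, `m = (|bits (R a)| + 1)^4 + |z|`
(`IsFP.pair`, `isFP_ask'` of TH678/WP/Down.lean, `IsFP.comp`; `poly_rep` of WC/Main.lean), and
`tool A (tc I m) = true ↔ I.Sat (ora A)` by `tool_spec` and `sat_of_agree` of WX/Dense.lean (the atoms ask about strings of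
length at most `|bits I|^2 < |tc I m|`). -/
def S_COL : Prop := ∀ (A : Oracle) (t : ℕ) (α : Type) [TEnc α] (κ : α → ℕ) (P : α → Prop),
  InW t (ora A) κ P → InFPT (ora A) κ P

/-- PIECE DEP (120 lines): the value `tool A u` depends on at most `bd |u|` places of `A`, which do not depend on `A`.
Strong induction on `|u|`: if `u = tc I m` with the two conditions (`I`, `m` are determined by `u`), take for all lists `v` of
length `I.blocks.sum` with entries `< I.labels.length` and all atoms `(0, l)` the string
`q = l.flatMap (labels of v)`: if `q = false :: z` the place `z`, if `q = true :: z` the places of `z` (by induction,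
`|z| < |bits I|^2`). (`Holds` only uses such `v`.) The number: `I.labels.length ^ I.blocks.sum * I.atoms.length * bd (|bits I|^2)`
with `L = log |u|`: `labels.length < 2^(L+1)`, `blocks.sum ≤ L`, `atoms.length ≤ L` (as `2^param ≤ m`),
`log (|bits I|^2) ≤ L / 2`, so it is at most `2^((L+1) L + L + (L+2)^2) ≤ bd |u|`. -/
def S_DEP : Prop := ∃ D : List Bool → Finset (List Bool), (∀ u, (D u).card ≤ bd u.length) ∧
  ∀ (A A' : Oracle) (u : List Bool), (∀ q ∈ D u, A q = A' q) → tool A u = tool A' u

/-- PIECE TR (60 lines): the questions of an algorithm on the input `x` are given by the list `c` of the answers. As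
`Alg.out_local` in H620R2/Gauge/A1.lean: by induction on `n`, for all `a` there is `Qf : List Bool → Finset (List Bool)` such that
for all `O` there is `c` of length `n` with: if `O'` agrees with `O` on `Qf c` then `M.run O' x n a = M.run O x n a`
(for a question `q`: `Qf (b :: c) = {q} ∪ Qf_b c`, `Qf_b` for `a ++ [b]`). -/
def S_TR : Prop := ∀ M : Alg, ∃ qb : Polynomial ℕ, ∀ x : List Bool, ∃ Qf : List Bool → Finset (List Bool),
  (∀ c, (Qf c).card ≤ M.p.eval x.length ∧ ∀ q ∈ Qf c, q.length ≤ qb.eval x.length) ∧
  ∀ O : Oracle, ∃ c : List Bool, c.length = M.p.eval x.length ∧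
    ∀ O' : Oracle, (∀ q ∈ Qf c, O' q = O q) → M.out O' x = M.out O x

/-- PIECE CNT (40 lines, counting): tables `T : W → X`, transcripts `f T` of length `N`, `T w ∈ G (f T)` is impossible for
all `T` and `w`: otherwise `|X|^|W| ≤ 2^N * 2^(β |W|)` (union of the `Fintype.piFinset (fun _ => G c)`). -/
def S_CNT : Prop := ∀ (K n β N : ℕ) (f : ((Fin K → Bool) → (Fin n → Bool)) → List Bool)
  (G : List Bool → Finset (Fin n → Bool)), (∀ T, (f T).length = N) → (∀ c, (G c).card ≤ 2 ^ β) →
  N + β * 2 ^ K < n * 2 ^ K → ∃ T w, T w ∉ G (f T)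

/-- PIECE NUM (60 lines, growth): with `L = log2 n`, `f n ≤ C n^d` etc. `k` depends on `p` and `r` only: for instance
`k = deg p * deg r + 1` (`p (s + r n) ≤ C n^(deg p deg r)` for large `n`, and `2^(L + 1) > n`); and
`N * bd (q (s + r n)) ≤ 2^(n / 2)` for large `n` as `log N + 4 (log q + 1)^2 = O(log^2 n)`. -/
def S_NUM : Prop := ∀ (p : Polynomial ℕ) (r : ℕ → Polynomial ℕ) (d : ℕ), (∀ k, (r k).natDegree ≤ d) →
  ∃ k : ℕ, ∀ (q : Polynomial ℕ) (s ℓ : ℕ), ∃ n : ℕ, ℓ < n ∧ ℓ < k * (Nat.log 2 n + 1) ∧
    p.eval (s + (r k).eval n) * bd (q.eval (s + (r k).eval n)) ≤ 2 ^ (n / 2) ∧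
    p.eval (s + (r k).eval n) + (n / 2) * 2 ^ (k * (Nat.log 2 n + 1)) < n * 2 ^ (k * (Nat.log 2 n + 1))

/-- the problem: `x = (x.1, x.2)`, `n = |x.1|`, `k = |x.2|` -/
def Pb (A : Oracle) (x : List Bool × List Bool) : Prop :=
  ∃ w : List Bool, w.length = x.2.length * (Nat.log 2 x.1.length + 1) ∧
    A (false :: (List.range x.1.length).map fun j => A (true :: pairBits w (List.replicate j true))) = true

/-- `P` is in `W[P]` relative to `A` (nondeterministic polynomial time after a precomputation on the parameter, with at most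
`h k * log n` guessed bits) -/
def InWPe (A : Oracle) {α : Type} [TEnc α] (κ : α → ℕ) (P : α → Prop) : Prop :=
  ∃ (π : ℕ → List Bool) (h : ℕ → ℕ) (V : List Bool → List Bool), Computable π ∧ Computable h ∧ IsFP A V ∧
    ∀ a, P a ↔ ∃ w : List Bool, w.length ≤ h (κ a) * (Nat.log 2 (bits a).length + 1) ∧
      V (pairBits w (pairBits (π (κ a)) (bits a))) = [true]

/-- PIECE VER (100 lines): the problem is in `W[P]`. Verifier: from `w` and `bits x` check the length of `w`, ask for
`j < n` about `false :: true :: pairBits w 1^j`, then about `false :: false :: (the answers)`. (`Alg` with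
`D ⟨y, a⟩`: if `|a| < n` the question number `|a|`, if `|a| = n` the question `false :: false :: a`, if `|a| = n + 1` stop
with the last answer; or `IsFP.loop`.) `π = fun _ => []`, `h k = k`; `|x.1| ≤ |bits x|`. -/
def S_VER : Prop := ∀ A : Oracle, InWPe (ora A) (fun x : List Bool × List Bool => x.2.length) (Pb A)

end Pool.Agent.H20WP
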